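import Mathlib
import Pool.Agent.Helper91.BP.Pr

/-! Neighbourhoods in the hypercube. -/

set_option autoImplicit false

namespace Pool.Agent.H500R3.Cube
open Finset

/-- the vertices of the cube -/
abbrev Q (n : ℕ) : Type := Fin n → Bool

variable {n : ℕ}

/-- flip one coordinate -/
def fl (v : Q n) (i : Fin n) : Q n := Function.update v i (!v i)

/-- the neighbours of `v` -/
def nb (v : Q n) : Finset (Q n) := univ.filter (fun u => hammingDist u v = 1)

theorem mem_nb {u v : Q n} : u ∈ nb v ↔ hammingDist u v = 1 := by simp [nb]

theorem mem_nb_comm {u v : Q n} : u ∈ nb v ↔ v ∈ nb u := by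
  rw [mem_nb, mem_nb, hammingDist_comm]

theorem fl_same (v : Q n) (i : Fin n) : fl v i i = !v i := by simp [fl]

theorem fl_ne (v : Q n) {i j : Fin n} (h : j ≠ i) : fl v i j = v j := by simp [fl, h]

theorem fl_inj (v : Q n) : Function.Injective (fl v) := by
  intro i j h
  by_contra hij
  have h1 := congrFun h i
  rw [fl_same, fl_ne v hij] at h1
  cases v i <;> simp at h1

theorem nb_eq (v : Q n) : nb v = univ.image (fl v) := by
  ext u
  rw [mem_nb, mem_image]
  constructor
  · intro h
    unfold hammingDist at h
    rw [card_eq_one] at h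
    obtain ⟨i, hi⟩ := h
    refine ⟨i, mem_univ _, ?_⟩
    funext j
    by_cases hj : j = i
    · subst hj
      rw [fl_same]
      have : j ∈ (univ.filter (fun k => u k ≠ v k)) := by rw [hi]; simp
      rw [mem_filter] at this
      have := this.2
      cases h1 : u j <;> cases h2 : v j <;> simp_all
    · rw [fl_ne v hj]
      have : j ∉ (univ.filter (fun k => u k ≠ v k)) := by rw [hi]; simpa using hj
      rw [mem_filter] at this
      simp only [mem_univ, true_and, ne_eq, not_not] at this
      exact this.symm
  · rintro ⟨i, _, rfl⟩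
    unfold hammingDist
    rw [card_eq_one]
    refine ⟨i, ?_⟩
    ext j
    rw [mem_filter, mem_singleton]
    constructor
    · rintro ⟨_, h⟩
      by_contra hj
      exact h (fl_ne v hj)
    · rintro rfl
      refine ⟨mem_univ _, ?_⟩
      rw [fl_same]
      cases v j <;> simp

theorem card_nb (v : Q n) : (nb v).card = n := by
  rw [nb_eq, card_image_of_injective _ (fl_inj v)]
  simp

theorem dist_fl (u x : Q n) (i : Fin n) (h : u i = x i) :
    hammingDist (fl u i) x = hammingDist u x + 1 := by
  unfold hammingDist
  have : (univ.filter (fun k => fl u i k ≠ x k)) = insert i (univ.filter (fun k => u k ≠ x k)) := by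
    ext j
    rw [mem_filter, mem_insert, mem_filter]
    by_cases hj : j = i
    · subst hj
      rw [fl_same, h]
      cases x j <;> simp
    · rw [fl_ne u hj]
      simp [hj]
  rw [this, card_insert_of_notMem]
  rw [mem_filter]
  simp [h]

theorem dist_fl' (u x : Q n) (i : Fin n) (h : u i ≠ x i) :
    hammingDist (fl u i) x + 1 = hammingDist u x := by
  unfold hammingDist
  have : (univ.filter (fun k => u k ≠ x k)) = insert i (univ.filter (fun k => fl u i k ≠ x k)) := by
    ext j
    rw [mem_filter, mem_insert, mem_filter]
    by_cases hj : j = i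
    · subst hj
      simp [h]
    · rw [fl_ne u hj]
      simp [hj]
  rw [this, card_insert_of_notMem]
  rw [mem_filter, fl_same]
  intro h2
  have := h2.2
  cases h3 : u i <;> cases h4 : x i <;> simp_all

/-- neighbours of `u` closer to `x` -/
def cl (u x : Q n) : Finset (Q n) := (nb u).filter (fun w => hammingDist w x < hammingDist u x)

theorem card_cl (u x : Q n) : (cl u x).card ≤ hammingDist u x := by
  have : cl u x ⊆ (univ.filter (fun k => u k ≠ x k)).image (fl u) := by
    intro w hw
    unfold cl at hw
    rw [mem_filter, nb_eq, mem_image] at hw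
    obtain ⟨⟨i, _, rfl⟩, h⟩ := hw
    rw [mem_image]
    refine ⟨i, ?_, rfl⟩
    rw [mem_filter]
    refine ⟨mem_univ _, ?_⟩
    intro hi
    rw [dist_fl u x i hi] at h
    omega
  refine le_trans (card_le_card this) (le_trans card_image_le ?_)
  exact le_refl _

theorem nb_dist {u w : Q n} (h : w ∈ nb u) (x : Q n) :
    hammingDist w x = hammingDist u x + 1 ∨ (hammingDist w x + 1 = hammingDist u x ∧ w ∈ cl u x) := by
  have h' := h
  rw [nb_eq, mem_image] at h
  obtain ⟨i, _, rfl⟩ := h
  by_cases hi : u i = x i
  · left; exact dist_fl u x i hi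
  · right
    have := dist_fl' u x i hi
    refine ⟨this, ?_⟩
    unfold cl
    rw [mem_filter]
    exact ⟨h', by omega⟩

/-- sphere -/
def sph (v : Q n) (j : ℕ) : Finset (Q n) := univ.filter (fun u => hammingDist u v = j)

theorem mem_sph {u v : Q n} {j : ℕ} : u ∈ sph v j ↔ hammingDist u v = j := by simp [sph]

theorem card_sph (v : Q n) (j : ℕ) : (sph v j).card ≤ n ^ j := by
  induction j with
  | zero =>
    have : sph v 0 ⊆ {v} := by
      intro u hu
      rw [mem_sph, hammingDist_eq_zero] at hu
      simp [hu]
    simpa using card_le_card this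
  | succ j ih =>
    have : sph v (j + 1) ⊆ (sph v j).biUnion nb := by
      intro u hu
      rw [mem_sph] at hu
      have hne : u ≠ v := by
        intro h
        rw [h, hammingDist_self] at hu
        omega
      have : ∃ i, u i ≠ v i := by
        by_contra hcon
        push Not at hcon
        exact hne (funext hcon)
      obtain ⟨i, hi⟩ := this
      rw [mem_biUnion]
      refine ⟨fl u i, ?_, ?_⟩
      · rw [mem_sph]
        have := dist_fl' u v i hi
        omega
      · rw [mem_nb_comm, nb_eq]
        exact mem_image_of_mem _ (mem_univ _)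
    calc (sph v (j + 1)).card ≤ ((sph v j).biUnion nb).card := card_le_card this
      _ ≤ ∑ u ∈ sph v j, (nb u).card := card_biUnion_le
      _ = (sph v j).card * n := by simp [card_nb]
      _ ≤ n ^ j * n := Nat.mul_le_mul_right _ ih
      _ = n ^ (j + 1) := by ring

/-- double counting of adjacent pairs -/
theorem double (Y A : Finset (Q n)) :
    ∑ y ∈ Y, (nb y ∩ A).card = ∑ z ∈ A, (nb z ∩ Y).card := by
  have h1 : ∀ y, (nb y ∩ A).card = ∑ z ∈ A, if hammingDist z y = 1 then 1 else 0 := by
    intro y
    rw [← Finset.card_filter]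
    congr 1
    ext z
    rw [Finset.mem_inter, mem_nb, Finset.mem_filter]
    tauto
  have h2 : ∀ z, (nb z ∩ Y).card = ∑ y ∈ Y, if hammingDist z y = 1 then 1 else 0 := by
    intro z
    rw [← Finset.card_filter]
    congr 1
    ext y
    rw [Finset.mem_inter, mem_nb, Finset.mem_filter, hammingDist_comm]
    tauto
  simp_rw [h1, h2]
  rw [Finset.sum_comm]

end Pool.Agent.H500R3.Cube
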