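import Pool.Agent.H500R3.Cube.Basic

/-! Levels of atypical vertices. -/

set_option autoImplicit false

namespace Pool.Agent.H500R3.Cube
open Finset Classical

variable {n : ℕ}

/-- `L t m A 0`: vertices with at least `t` neighbours in `A`; `L t m A (j+1)`: vertices with at
least `m` neighbours in `L t m A j` -/
noncomputable def L (t m : ℝ) (A : Finset (Q n)) : ℕ → Finset (Q n)
  | 0 => univ.filter (fun v => t ≤ ((nb v ∩ A).card : ℝ))
  | (j + 1) => univ.filter (fun v => m ≤ ((nb v ∩ L t m A j).card : ℝ))

theorem mem_L0 {t m : ℝ} {A : Finset (Q n)} {v : Q n} :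
    v ∈ L t m A 0 ↔ t ≤ ((nb v ∩ A).card : ℝ) := by simp [L]

theorem mem_Ls {t m : ℝ} {A : Finset (Q n)} {j : ℕ} {v : Q n} :
    v ∈ L t m A (j + 1) ↔ m ≤ ((nb v ∩ L t m A j).card : ℝ) := by simp [L]

/-- the descendants in level zero -/
noncomputable def W (t m : ℝ) (A : Finset (Q n)) (v0 u : Q n) (a j : ℕ) : Finset (Q n) :=
  (L t m A 0).filter (fun w => hammingDist w v0 = a ∧ hammingDist w u = j)

theorem growth {t m : ℝ} {K : ℕ} (hm : (K : ℝ) ≤ m) (A : Finset (Q n)) (v0 : Q n) :
    ∀ j i : ℕ, ∀ u : Q n, hammingDist u v0 = i → u ∈ L t m A j → i + j ≤ K →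
      (m - K) ^ j ≤ (j.factorial : ℝ) * ((W t m A v0 u (i + j) j).card : ℝ) := by
  intro j
  induction j with
  | zero =>
    intro i u hu huL _
    have : u ∈ W t m A v0 u (i + 0) 0 := by
      unfold W
      rw [mem_filter]
      exact ⟨huL, by simpa using hu, by simp⟩
    have h1 : 1 ≤ (W t m A v0 u (i + 0) 0).card := card_pos.2 ⟨u, this⟩
    have h2 : (1 : ℝ) ≤ ((W t m A v0 u (i + 0) 0).card : ℝ) := by exact_mod_cast h1
    simpa using h2
  | succ j ih =>
    intro i u hu huL hij
    set U : Finset (Q n) := (nb u ∩ L t m A j).filter (fun w => hammingDist w v0 = i + 1) with hU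
    -- U is large
    have hUc : m - K ≤ (U.card : ℝ) := by
      have h1 : nb u ∩ L t m A j ⊆ U ∪ cl u v0 := by
        intro w hw
        rw [mem_union]
        rcases nb_dist (mem_inter.1 hw).1 v0 with h | h
        · left
          rw [hU, mem_filter]
          exact ⟨hw, by omega⟩
        · right; exact h.2
      have h2 : (nb u ∩ L t m A j).card ≤ U.card + i := by
        calc _ ≤ (U ∪ cl u v0).card := card_le_card h1
          _ ≤ U.card + (cl u v0).card := card_union_le _ _
          _ ≤ U.card + i := by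
            have := card_cl u v0
            omega
      have h3 := mem_Ls.1 huL
      have h4 : ((nb u ∩ L t m A j).card : ℝ) ≤ (U.card : ℝ) + i := by exact_mod_cast h2
      have h5 : (i : ℝ) ≤ K := by
        have : i ≤ K := by omega
        exact_mod_cast this
      linarith
    -- each element of U has many descendants
    have hW : ∀ w ∈ U, (m - K) ^ j ≤ (j.factorial : ℝ) * ((W t m A v0 w (i + 1 + j) j).card : ℝ) := by
      intro w hw
      rw [hU, mem_filter, mem_inter] at hw
      exact ih (i + 1) w hw.2 hw.1.2 (by omega)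
    -- double counting
    have hD : ∑ w ∈ U, (W t m A v0 w (i + 1 + j) j).card ≤
        (j + 1) * (W t m A v0 u (i + (j + 1)) (j + 1)).card := by
      have e1 : ∀ w, (W t m A v0 w (i + 1 + j) j).card =
          ∑ x ∈ L t m A 0, if (hammingDist x v0 = i + 1 + j ∧ hammingDist x w = j) then 1 else 0 := by
        intro w
        unfold W
        rw [card_filter]
      simp_rw [e1]
      rw [sum_comm]
      have e2 : ∀ x ∈ L t m A 0, ∑ w ∈ U, (if (hammingDist x v0 = i + 1 + j ∧ hammingDist x w = j) then 1 else 0)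
          ≤ if x ∈ W t m A v0 u (i + (j + 1)) (j + 1) then (j + 1) else 0 := by
        intro x hx
        by_cases hxW : x ∈ W t m A v0 u (i + (j + 1)) (j + 1)
        · rw [if_pos hxW]
          unfold W at hxW
          rw [mem_filter] at hxW
          rw [← card_filter]
          have : U.filter (fun w => hammingDist x v0 = i + 1 + j ∧ hammingDist x w = j) ⊆ cl u x := by
            intro w hw
            rw [mem_filter, hU, mem_filter, mem_inter] at hw
            unfold cl
            rw [mem_filter]
            refine ⟨hw.1.1.1, ?_⟩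
            rw [hammingDist_comm w x, hammingDist_comm u x, hw.2.2, hxW.2.2]
            omega
          refine le_trans (card_le_card this) (le_trans (card_cl u x) ?_)
          rw [hammingDist_comm, hxW.2.2]
        · rw [if_neg hxW]
          apply le_of_eq
          apply sum_eq_zero
          intro w hw
          rw [if_neg]
          rintro ⟨h1, h2⟩
          apply hxW
          rw [hU, mem_filter, mem_inter, mem_nb] at hw
          unfold W
          rw [mem_filter]
          refine ⟨hx, by omega, ?_⟩
          have t1 := hammingDist_triangle x u v0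
          have t2 := hammingDist_triangle x w u
          omega
      calc _ ≤ ∑ x ∈ L t m A 0, (if x ∈ W t m A v0 u (i + (j + 1)) (j + 1) then (j + 1) else 0) :=
            sum_le_sum e2
        _ = (j + 1) * (W t m A v0 u (i + (j + 1)) (j + 1)).card := by
          rw [← sum_filter, sum_const, smul_eq_mul, mul_comm]
          congr 2
          ext x
          rw [mem_filter]
          constructor
          · exact fun h => h.2
          · intro h
            refine ⟨?_, h⟩
            unfold W at h
            exact (mem_filter.1 h).1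
    have hD' : ∑ w ∈ U, ((W t m A v0 w (i + 1 + j) j).card : ℝ) ≤
        ((j : ℝ) + 1) * ((W t m A v0 u (i + (j + 1)) (j + 1)).card : ℝ) := by exact_mod_cast hD
    have hS : (U.card : ℝ) * (m - K) ^ j ≤
        (j.factorial : ℝ) * ∑ w ∈ U, ((W t m A v0 w (i + 1 + j) j).card : ℝ) := by
      rw [mul_sum, ← nsmul_eq_mul, ← sum_const]
      exact sum_le_sum hW
    have hpow : 0 ≤ (m - K) ^ j := pow_nonneg (by linarith) j
    have hfac : (0 : ℝ) ≤ (j.factorial : ℝ) := Nat.cast_nonneg _
    calc (m - K) ^ (j + 1) = (m - K) * (m - K) ^ j := by ring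
      _ ≤ (U.card : ℝ) * (m - K) ^ j := mul_le_mul_of_nonneg_right hUc hpow
      _ ≤ (j.factorial : ℝ) * ∑ w ∈ U, ((W t m A v0 w (i + 1 + j) j).card : ℝ) := hS
      _ ≤ (j.factorial : ℝ) * (((j : ℝ) + 1) * ((W t m A v0 u (i + (j + 1)) (j + 1)).card : ℝ)) :=
        mul_le_mul_of_nonneg_left hD' hfac
      _ = ((j + 1).factorial : ℝ) * ((W t m A v0 u (i + (j + 1)) (j + 1)).card : ℝ) := by
        rw [Nat.factorial_succ]; push_cast; ring

/-- a vertex of level `j` has many level zero vertices at distance `j` -/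
theorem level_many {t m : ℝ} {K : ℕ} (hm : (K : ℝ) ≤ m) (A : Finset (Q n)) (v0 : Q n) {j : ℕ}
    (hj : j ≤ K) (h : v0 ∈ L t m A j) {M : ℕ} (hM : ((M : ℝ) - 1) * (j.factorial : ℝ) < (m - K) ^ j) :
    ∃ Y ∈ (sph v0 j).powersetCard M, Y ⊆ L t m A 0 := by
  have h1 := growth hm A v0 j 0 v0 (hammingDist_self v0) h (by omega)
  rw [zero_add] at h1
  have hf : (0 : ℝ) < (j.factorial : ℝ) := by exact_mod_cast Nat.factorial_pos j
  have h2 : (M : ℝ) - 1 < ((W t m A v0 v0 j j).card : ℝ) := by
    have : ((M : ℝ) - 1) * (j.factorial : ℝ) < ((W t m A v0 v0 j j).card : ℝ) * (j.factorial : ℝ) := by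
      linarith
    exact lt_of_mul_lt_mul_right this hf.le
  have h3 : M ≤ (W t m A v0 v0 j j).card := by
    have : (M : ℝ) < ((W t m A v0 v0 j j).card : ℝ) + 1 := by linarith
    have : M < (W t m A v0 v0 j j).card + 1 := by exact_mod_cast this
    omega
  obtain ⟨Y, hY, hYc⟩ := exists_subset_card_eq h3
  refine ⟨Y, ?_, ?_⟩
  · rw [mem_powersetCard]
    refine ⟨?_, hYc⟩
    intro w hw
    have := hY hw
    unfold W at this
    rw [mem_sph]
    exact (mem_filter.1 this).2.1
  · intro w hw
    have := hY hw
    unfold W at this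
    exact (mem_filter.1 this).1

/-- the infection stays inside `A` and the first levels, if the last level is empty -/
theorem closed {t m r : ℝ} {K : ℕ} (A : Finset (Q n)) (hr : t + K * m ≤ r)
    (hK : L t m A K = ∅) (v : Q n)
    (hv : r ≤ (((A ∪ (range K).biUnion (L t m A)) ∩ nb v).card : ℝ)) :
    v ∈ A ∪ (range K).biUnion (L t m A) := by
  by_contra hcon
  have hK1 : ∀ j ≤ K, v ∉ L t m A j := by
    intro j hj hv'
    rcases Nat.lt_or_ge j K with h | h
    · apply hcon
      rw [mem_union, mem_biUnion]
      exact Or.inr ⟨j, mem_range.2 h, hv'⟩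
    · have : j = K := by omega
      rw [this, hK] at hv'
      simp at hv'
  have h0 : ((nb v ∩ A).card : ℝ) < t := by
    have := hK1 0 (by omega)
    rw [mem_L0] at this
    linarith
  have hj : ∀ j ∈ range K, ((nb v ∩ L t m A j).card : ℝ) ≤ m := by
    intro j hj
    have := hK1 (j + 1) (by have := mem_range.1 hj; omega)
    rw [mem_Ls] at this
    linarith
  have hcard : ((A ∪ (range K).biUnion (L t m A)) ∩ nb v).card ≤
      (nb v ∩ A).card + ∑ j ∈ range K, (nb v ∩ L t m A j).card := by
    have hsub : (A ∪ (range K).biUnion (L t m A)) ∩ nb v ⊆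
        (nb v ∩ A) ∪ (range K).biUnion (fun j => nb v ∩ L t m A j) := by
      intro w hw
      rw [mem_inter, mem_union, mem_biUnion] at hw
      rw [mem_union, mem_biUnion]
      rcases hw.1 with h | ⟨j, hj, h⟩
      · exact Or.inl (mem_inter.2 ⟨hw.2, h⟩)
      · exact Or.inr ⟨j, hj, mem_inter.2 ⟨hw.2, h⟩⟩
    calc _ ≤ ((nb v ∩ A) ∪ (range K).biUnion (fun j => nb v ∩ L t m A j)).card := card_le_card hsub
      _ ≤ (nb v ∩ A).card + ((range K).biUnion (fun j => nb v ∩ L t m A j)).card := card_union_le _ _
      _ ≤ _ := Nat.add_le_add_left card_biUnion_le _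
  have hcard' : (((A ∪ (range K).biUnion (L t m A)) ∩ nb v).card : ℝ) ≤
      ((nb v ∩ A).card : ℝ) + ∑ j ∈ range K, ((nb v ∩ L t m A j).card : ℝ) := by
    exact_mod_cast hcard
  have hs : ∑ j ∈ range K, ((nb v ∩ L t m A j).card : ℝ) ≤ K * m := by
    calc _ ≤ ∑ j ∈ range K, m := sum_le_sum hj
      _ = K * m := by simp
  linarith

end Pool.Agent.H500R3.Cube
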