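import Pool.Agent.H500R3.Cube.Prob

/-! Asymptotics of the critical probability. -/

set_option autoImplicit false

namespace Pool.Agent.H500R3.Cube
open Finset Classical Pool.Agent.Helper91.BP Filter Topology

variable {n : ℕ}

theorem Pr_mem {V : Type*} [Fintype V] [DecidableEq V] {p : ℝ} (v : V) :
    Pr p (fun A => v ∈ A) = p := by
  have h := sum_prod (V := V) p (fun _ => 1) (fun w => if w = v then 0 else 1)
  have h1 : Pr p (fun A => v ∈ A) = ∑ A : Finset V, wt p A * ((∏ w ∈ A, (1 : ℝ)) *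
      (∏ w ∈ Aᶜ, (if w = v then (0 : ℝ) else 1))) := by
    unfold Pr
    apply Finset.sum_congr rfl
    intro A _
    rw [Finset.prod_const_one, one_mul]
    by_cases hD : v ∈ A
    · rw [if_pos hD]
      have : ∏ w ∈ Aᶜ, (if w = v then (0 : ℝ) else 1) = 1 := by
        apply Finset.prod_eq_one
        intro w hw
        rw [if_neg]
        intro h
        exact (Finset.mem_compl.1 hw) (h ▸ hD)
      rw [this, mul_one]
    · rw [if_neg hD]
      have : ∏ w ∈ Aᶜ, (if w = v then (0 : ℝ) else 1) = 0 := by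
        apply Finset.prod_eq_zero (i := v) (Finset.mem_compl.2 hD)
        rw [if_pos rfl]
      rw [this, mul_zero]
  rw [h1, h]
  have h2 : ∀ w : V, p * 1 + (1 - p) * (if w = v then (0 : ℝ) else 1) = if w = v then p else 1 := by
    intro w
    split_ifs <;> ring
  simp_rw [h2]
  rw [Finset.prod_ite_eq']
  simp

/-- the lower bound, for one `n` -/
theorem lower_one {p r δ : ℝ} {K : ℕ} (hK : 1 ≤ K) (hn : 1 ≤ n) (hδ : 0 < δ) (hδ1 : δ ≤ 1 / 4)
    (h0 : 0 ≤ p) (h1 : p ≤ 1) (hp : p * n ≤ (1 - 2 * δ) * r) (hr : 0 < r)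
    (hA : 2 * (K : ℝ) ≤ δ * r / K)
    (hB : K * Real.log n + δ / (4 * ((K : ℝ) + 1)) * K ≤ 1 / 2 * (δ / (4 * ((K : ℝ) + 1)) * δ * r)) :
    Pr p (fun A : Finset (Q n) => Perc r A) ≤ p + K * Real.exp (-(δ / (4 * ((K : ℝ) + 1)) * δ / 4 * r)) +
      2 ^ n * Real.exp (-(δ / (4 * ((K : ℝ) + 1)) * δ / 4 * ((δ / (2 * K)) ^ K / K.factorial) * r ^ (K + 1))) := by
  have hK0 : (0 : ℝ) < K := by exact_mod_cast hK
  set s : ℝ := δ / (4 * ((K : ℝ) + 1)) with hs
  have hs0 : 0 < s := by positivity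
  have hsK : s * ((K : ℝ) + 1) = δ / 4 := by rw [hs]; field_simp
  set t : ℝ := (1 - δ) * r with ht
  set m : ℝ := δ * r / K with hm
  have hKm : (K : ℝ) ≤ m := by linarith
  have htm : t + K * m ≤ r := by
    rw [ht, hm]
    have : (K : ℝ) * (δ * r / K) = δ * r := by field_simp
    rw [this]
    linarith
  have hlogn : 0 ≤ Real.log n := Real.log_natCast_nonneg n
  -- the level bound
  have hlev : ∀ (v0 : Q n) (j : ℕ), j ≤ K →
      Pr p (fun A => v0 ∈ L t m A j) ≤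
        Real.exp (-((((m / 2) ^ j / j.factorial) ⊔ 1) * (s * δ / 4 * r))) := by
    intro v0 j hj
    have hjf : (0 : ℝ) < (j.factorial : ℝ) := by exact_mod_cast Nat.factorial_pos j
    have hmK : m / 2 ≤ m - K := by linarith
    have hm2 : 0 < m / 2 := by
      have : 0 < m := lt_of_lt_of_le hK0 hKm
      linarith
    set x : ℝ := (m - K) ^ j / j.factorial with hx
    have hx0 : 0 < x := div_pos (pow_pos (by linarith) j) hjf
    set M : ℕ := ⌈x⌉₊ with hM
    have hMx : x ≤ M := Nat.le_ceil x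
    have hM1 : 1 ≤ M := Nat.one_le_iff_ne_zero.2 (by
      intro h
      rw [h] at hMx
      simp at hMx
      linarith)
    have hMlt : ((M : ℝ) - 1) * (j.factorial : ℝ) < (m - K) ^ j := by
      have h2 : (M : ℝ) < x + 1 := Nat.ceil_lt_add_one hx0.le
      have h3 : (M : ℝ) - 1 < x := by linarith
      calc ((M : ℝ) - 1) * (j.factorial : ℝ) < x * (j.factorial : ℝ) :=
            mul_lt_mul_of_pos_right h3 hjf
        _ = (m - K) ^ j := by rw [hx]; field_simp
    have hjK : (j : ℝ) ≤ K := by exact_mod_cast hj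
    have hs1 : s * ((j : ℝ) + 1) ≤ δ / 4 := by
      rw [← hsK]
      exact mul_le_mul_of_nonneg_left (by linarith) hs0.le
    have h4 := level_prob (s := s) (t := t) h0 h1 hKm v0 hj hn hMlt hs0.le (by linarith)
    refine le_trans h4 (Real.exp_le_exp.2 ?_)
    have hbr : j * Real.log n - (s * (t - j)) + p * (s * (1 + s * ((j : ℝ) + 1)) * n) ≤
        -(s * δ / 4 * r) := by
      have e1 : (j : ℝ) * Real.log n ≤ K * Real.log n := mul_le_mul_of_nonneg_right hjK hlogn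
      have e2 : s * (j : ℝ) ≤ s * K := mul_le_mul_of_nonneg_left hjK hs0.le
      have e3 : p * (s * (1 + s * ((j : ℝ) + 1)) * n) ≤ s * (1 + δ / 4) * ((1 - 2 * δ) * r) := by
        have : p * (s * (1 + s * ((j : ℝ) + 1)) * n) = s * (1 + s * ((j : ℝ) + 1)) * (p * n) := by ring
        rw [this]
        apply mul_le_mul _ hp (by positivity) (by positivity)
        apply mul_le_mul_of_nonneg_left _ hs0.le
        linarith
      have e4 : s * (1 + δ / 4) * ((1 - 2 * δ) * r) ≤ s * ((1 - 7 / 4 * δ) * r) := by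
        have : (1 + δ / 4) * (1 - 2 * δ) ≤ 1 - 7 / 4 * δ := by nlinarith
        have h5 := mul_le_mul_of_nonneg_left (mul_le_mul_of_nonneg_right this hr.le) hs0.le
        nlinarith
      rw [ht]
      nlinarith
    have hmax : ((m / 2) ^ j / j.factorial) ⊔ 1 ≤ (M : ℝ) := by
      apply max_le
      · refine le_trans ?_ hMx
        rw [hx]
        exact div_le_div_of_nonneg_right (pow_le_pow_left₀ hm2.le hmK j) hjf.le
      · exact_mod_cast hM1
    have hpos : 0 ≤ s * δ / 4 * r := by positivity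
    calc (M : ℝ) * (j * Real.log n - (s * (t - j)) + p * (s * (1 + s * ((j : ℝ) + 1)) * n))
        ≤ (M : ℝ) * (-(s * δ / 4 * r)) := mul_le_mul_of_nonneg_left hbr (Nat.cast_nonneg _)
      _ = -((M : ℝ) * (s * δ / 4 * r)) := by ring
      _ ≤ _ := by
        apply neg_le_neg
        exact mul_le_mul_of_nonneg_right hmax hpos
  -- decomposition
  set v0 : Q n := fun _ => false with hv0
  have hsub : ∀ A : Finset (Q n), Perc r A →
      ((v0 ∈ A ∨ ∃ j ∈ range K, v0 ∈ L t m A j) ∨ ∃ v ∈ (univ : Finset (Q n)), v ∈ L t m A K) := by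
    intro A hA
    by_cases hLK : L t m A K = ∅
    · left
      have h5 := hA (A ∪ (range K).biUnion (L t m A)) subset_union_left (by
        intro v hv
        rw [inter_nb] at hv
        exact closed A htm hLK v hv)
      have h6 : v0 ∈ A ∪ (range K).biUnion (L t m A) := by rw [h5]; exact mem_univ _
      rw [mem_union, mem_biUnion] at h6
      exact h6
    · right
      obtain ⟨v, hv⟩ := nonempty_iff_ne_empty.2 hLK
      exact ⟨v, mem_univ _, hv⟩
  have hdec : Pr p (fun A : Finset (Q n) => Perc r A) ≤ (p + ∑ j ∈ range K, Pr p (fun A => v0 ∈ L t m A j)) +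
      ∑ v ∈ (univ : Finset (Q n)), Pr p (fun A => v ∈ L t m A K) := by
    calc Pr p (fun A : Finset (Q n) => Perc r A) ≤ Pr p (fun A =>
          ((v0 ∈ A ∨ ∃ j ∈ range K, v0 ∈ L t m A j) ∨ ∃ v ∈ (univ : Finset (Q n)), v ∈ L t m A K)) :=
          Pr_mono h0 h1 hsub
      _ ≤ Pr p (fun A => (v0 ∈ A ∨ ∃ j ∈ range K, v0 ∈ L t m A j)) +
          Pr p (fun A => ∃ v ∈ (univ : Finset (Q n)), v ∈ L t m A K) := Pr_or_le h0 h1 _ _
      _ ≤ _ := by
        apply add_le_add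
        · calc _ ≤ Pr p (fun A => v0 ∈ A) + Pr p (fun A => ∃ j ∈ range K, v0 ∈ L t m A j) :=
              Pr_or_le h0 h1 _ _
            _ ≤ _ := by
              rw [Pr_mem]
              exact add_le_add le_rfl (Pr_bUnion_le h0 h1 _ _)
        · exact Pr_bUnion_le h0 h1 _ _
  have hpos : 0 ≤ s * δ / 4 * r := by positivity
  have hfirst : ∑ j ∈ range K, Pr p (fun A => v0 ∈ L t m A j) ≤ K * Real.exp (-(s * δ / 4 * r)) := by
    calc _ ≤ ∑ j ∈ range K, Real.exp (-(s * δ / 4 * r)) := by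
          apply sum_le_sum
          intro j hj
          refine le_trans (hlev v0 j (by have := mem_range.1 hj; omega)) (Real.exp_le_exp.2 ?_)
          apply neg_le_neg
          have h7 : (1 : ℝ) ≤ ((m / 2) ^ j / j.factorial) ⊔ 1 := le_max_right _ _
          nlinarith
      _ = _ := by simp
  have hsecond : ∑ v ∈ (univ : Finset (Q n)), Pr p (fun A => v ∈ L t m A K) ≤
      2 ^ n * Real.exp (-(s * δ / 4 * ((δ / (2 * K)) ^ K / K.factorial) * r ^ (K + 1))) := by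
    calc _ ≤ ∑ v ∈ (univ : Finset (Q n)),
          Real.exp (-(s * δ / 4 * ((δ / (2 * K)) ^ K / K.factorial) * r ^ (K + 1))) := by
          apply sum_le_sum
          intro v _
          refine le_trans (hlev v K le_rfl) (Real.exp_le_exp.2 ?_)
          apply neg_le_neg
          have h7 : (m / 2) ^ K / K.factorial ≤ ((m / 2) ^ K / K.factorial) ⊔ 1 := le_max_left _ _
          have h8 : (m / 2) ^ K = (δ / (2 * K)) ^ K * r ^ K := by
            rw [← mul_pow, hm]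
            congr 1
            field_simp
          calc s * δ / 4 * ((δ / (2 * K)) ^ K / K.factorial) * r ^ (K + 1)
              = ((m / 2) ^ K / K.factorial) * (s * δ / 4 * r) := by
                rw [h8]; ring
            _ ≤ _ := mul_le_mul_of_nonneg_right h7 hpos
      _ = _ := by
        rw [sum_const, nsmul_eq_mul]
        simp
  linarith

/-- the critical probability -/
noncomputable def pcr (n : ℕ) (r : ℝ) : ℝ :=
  sInf {p : ℝ | 0 ≤ p ∧ p ≤ 1 ∧ 1 / 2 ≤ Pr p (fun A : Finset (Q n) => Perc r A)}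

theorem tendsto_rpow_nat {a : ℝ} (ha : 0 < a) :
    Tendsto (fun n : ℕ => (n : ℝ) ^ a) atTop atTop :=
  (tendsto_rpow_atTop ha).comp tendsto_natCast_atTop_atTop

theorem rpow_pred {a : ℝ} {n : ℕ} (hn : 1 ≤ n) : (n : ℝ) ^ (a - 1) * n = (n : ℝ) ^ a := by
  have hn0 : (0 : ℝ) < n := by exact_mod_cast hn
  rw [Real.rpow_sub_one hn0.ne']
  field_simp

theorem lower_ev {a δ : ℝ} (ha : 0 < a) (ha1 : a < 1) (hδ : 0 < δ) (hδ1 : δ ≤ 1 / 4) :
    ∀ᶠ n : ℕ in atTop, ∀ p : ℝ, 0 ≤ p → p ≤ 1 → p ≤ (1 - 2 * δ) * (n : ℝ) ^ (a - 1) →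
      Pr p (fun A : Finset (Q n) => Perc ((n : ℝ) ^ a) A) < 1 / 2 := by
  set K : ℕ := ⌈1 / a⌉₊ with hK
  have hK1 : 1 ≤ K := Nat.one_le_iff_ne_zero.2 (by
    intro h
    rw [hK, Nat.ceil_eq_zero] at h
    have : 0 < 1 / a := by positivity
    linarith)
  have hKa : 1 / a ≤ K := Nat.le_ceil _
  have hKa' : 1 < a * ((K : ℝ) + 1) := by
    have : a * (1 / a) = 1 := by field_simp
    have : a * (1 / a) ≤ a * K := mul_le_mul_of_nonneg_left hKa ha.le
    nlinarith
  have hK0 : (0 : ℝ) < K := by exact_mod_cast hK1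
  set s : ℝ := δ / (4 * ((K : ℝ) + 1)) with hs
  have hs0 : 0 < s := by positivity
  set c : ℝ := s * δ / 4 * ((δ / (2 * K)) ^ K / K.factorial) with hc
  have hc0 : 0 < c := by
    have : (0 : ℝ) < (K.factorial : ℝ) := by exact_mod_cast Nat.factorial_pos K
    positivity
  have E1 : ∀ᶠ n : ℕ in atTop, 2 * (K : ℝ) ≤ δ * (n : ℝ) ^ a / K := by
    have : Tendsto (fun n : ℕ => δ * (n : ℝ) ^ a / K) atTop atTop :=
      ((tendsto_rpow_nat ha).const_mul_atTop hδ).atTop_div_const hK0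
    exact this.eventually_ge_atTop _
  have E2 : ∀ᶠ n : ℕ in atTop, K * Real.log n + s * K ≤ 1 / 2 * (s * δ * (n : ℝ) ^ a) := by
    have h1 : ∀ᶠ n : ℕ in atTop, Real.log n ≤ (s * δ / (4 * K)) * (n : ℝ) ^ a := by
      have h2 := (isLittleO_log_rpow_atTop ha).bound (show (0 : ℝ) < s * δ / (4 * K) by positivity)
      have h3 := tendsto_natCast_atTop_atTop (R := ℝ) |>.eventually h2
      filter_upwards [h3] with n hn
      rw [Real.norm_eq_abs, Real.norm_eq_abs, abs_of_nonneg (Real.rpow_nonneg (Nat.cast_nonneg n) a)] at hn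
      exact le_trans (le_abs_self _) hn
    have h4 : ∀ᶠ n : ℕ in atTop, s * K ≤ (s * δ / 4) * (n : ℝ) ^ a :=
      ((tendsto_rpow_nat ha).const_mul_atTop (by positivity)).eventually_ge_atTop _
    filter_upwards [h1, h4] with n h5 h6
    have h7 := mul_le_mul_of_nonneg_left h5 hK0.le
    have h8 : (K : ℝ) * ((s * δ / (4 * K)) * (n : ℝ) ^ a) = (s * δ / 4) * (n : ℝ) ^ a := by
      field_simp
    linarith
  have E3 : ∀ᶠ n : ℕ in atTop, (n : ℝ) ^ (a - 1) < 1 / 8 := by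
    have h1 : Tendsto (fun n : ℕ => (n : ℝ) ^ (-(1 - a))) atTop (𝓝 0) :=
      (tendsto_rpow_neg_atTop (by linarith : 0 < 1 - a)).comp tendsto_natCast_atTop_atTop
    have h2 : Tendsto (fun n : ℕ => (n : ℝ) ^ (a - 1)) atTop (𝓝 0) := by
      have : (fun n : ℕ => (n : ℝ) ^ (a - 1)) = fun n : ℕ => (n : ℝ) ^ (-(1 - a)) := by
        funext n; congr 1; ring
      rw [this]; exact h1
    exact h2.eventually_lt_const (by norm_num)
  have E4 : ∀ᶠ n : ℕ in atTop, K * Real.exp (-(s * δ / 4 * (n : ℝ) ^ a)) < 1 / 8 := by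
    have h1 : Tendsto (fun n : ℕ => K * Real.exp (-(s * δ / 4 * (n : ℝ) ^ a))) atTop (𝓝 ((K : ℝ) * 0)) := by
      apply Tendsto.const_mul
      apply Real.tendsto_exp_neg_atTop_nhds_zero.comp
      exact (tendsto_rpow_nat ha).const_mul_atTop (by positivity)
    rw [mul_zero] at h1
    exact h1.eventually_lt_const (by norm_num)
  have E5 : ∀ᶠ n : ℕ in atTop, (2 : ℝ) ^ n * Real.exp (-(c * ((n : ℝ) ^ a) ^ (K + 1))) < 1 / 8 := by
    have hb : 0 < a * ((K : ℝ) + 1) - 1 := by linarith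
    have h1 : ∀ᶠ n : ℕ in atTop, 4 ≤ c * (n : ℝ) ^ (a * ((K : ℝ) + 1) - 1) :=
      ((tendsto_rpow_nat hb).const_mul_atTop hc0).eventually_ge_atTop _
    filter_upwards [h1, eventually_ge_atTop 1] with n h2 hn
    have hn0 : (0 : ℝ) < n := by exact_mod_cast hn
    have h3 : ((n : ℝ) ^ a) ^ (K + 1) = (n : ℝ) ^ (a * ((K : ℝ) + 1) - 1) * n := by
      rw [rpow_pred hn, ← Real.rpow_natCast, ← Real.rpow_mul hn0.le]
      push_cast
      ring_nf
    have h4 : 4 * (n : ℝ) ≤ c * ((n : ℝ) ^ a) ^ (K + 1) := by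
      rw [h3]
      nlinarith
    have h5 : Real.exp (-(c * ((n : ℝ) ^ a) ^ (K + 1))) ≤ Real.exp (-(4 * (n : ℝ))) :=
      Real.exp_le_exp.2 (by linarith)
    have h6 : (2 : ℝ) ^ n * Real.exp (-(4 * (n : ℝ))) = (2 * Real.exp (-4)) ^ n := by
      rw [mul_pow, ← Real.exp_nat_mul]
      congr 2
      ring
    have h7 : 2 * Real.exp (-4) < 1 / 8 := by
      have h8 : (2 : ℝ) ^ 4 * 1 < Real.exp 4 := by
        have h9 := Real.exp_one_gt_d9
        have : Real.exp 4 = Real.exp 1 ^ 4 := by rw [← Real.exp_nat_mul]; norm_num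
        rw [this]
        have h10 : (2.7 : ℝ) ^ 4 ≤ Real.exp 1 ^ 4 := pow_le_pow_left₀ (by norm_num) (by linarith) 4
        norm_num at h10 ⊢
        linarith
      rw [Real.exp_neg]
      have h11 : (16 : ℝ) < Real.exp 4 := by linarith
      have : (Real.exp 4)⁻¹ < 16⁻¹ := inv_strictAnti₀ (by norm_num) h11
      linarith
    calc (2 : ℝ) ^ n * Real.exp (-(c * ((n : ℝ) ^ a) ^ (K + 1)))
        ≤ (2 : ℝ) ^ n * Real.exp (-(4 * (n : ℝ))) := mul_le_mul_of_nonneg_left h5 (by positivity)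
      _ = (2 * Real.exp (-4)) ^ n := h6
      _ ≤ (2 * Real.exp (-4)) ^ 1 := pow_le_pow_of_le_one (by positivity) (by linarith) hn
      _ < 1 / 8 := by rw [pow_one]; exact h7
  filter_upwards [E1, E2, E3, E4, E5, eventually_ge_atTop 1] with n e1 e2 e3 e4 e5 hn p h0 h1 hp
  have hn0 : (0 : ℝ) < n := by exact_mod_cast hn
  have hr : 0 < (n : ℝ) ^ a := Real.rpow_pos_of_pos hn0 a
  have hpn : p * n ≤ (1 - 2 * δ) * (n : ℝ) ^ a := by
    calc p * n ≤ ((1 - 2 * δ) * (n : ℝ) ^ (a - 1)) * n := mul_le_mul_of_nonneg_right hp hn0.le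
      _ = (1 - 2 * δ) * (n : ℝ) ^ a := by rw [mul_assoc, rpow_pred hn]
  have hmain := lower_one (K := K) hK1 hn hδ hδ1 h0 h1 hpn hr e1 e2
  have hp8 : p < 1 / 8 := by
    have : (1 - 2 * δ) * (n : ℝ) ^ (a - 1) ≤ 1 * (n : ℝ) ^ (a - 1) :=
      mul_le_mul_of_nonneg_right (by linarith) (Real.rpow_nonneg hn0.le _)
    linarith
  linarith

theorem upper_ev {a ε : ℝ} (ha : 0 < a) (ha1 : a < 1) (hε : 0 < ε) (hε1 : ε ≤ 1) :
    ∀ᶠ n : ℕ in atTop, (1 + ε) * (n : ℝ) ^ (a - 1) ≤ 1 ∧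
      1 / 2 ≤ Pr ((1 + ε) * (n : ℝ) ^ (a - 1)) (fun A : Finset (Q n) => Perc ((n : ℝ) ^ a) A) := by
  have h2 : Tendsto (fun n : ℕ => (n : ℝ) ^ (a - 1)) atTop (𝓝 0) := by
    have h1 : Tendsto (fun n : ℕ => (n : ℝ) ^ (-(1 - a))) atTop (𝓝 0) :=
      (tendsto_rpow_neg_atTop (by linarith : 0 < 1 - a)).comp tendsto_natCast_atTop_atTop
    have : (fun n : ℕ => (n : ℝ) ^ (a - 1)) = fun n : ℕ => (n : ℝ) ^ (-(1 - a)) := by
      funext n; congr 1; ring
    rw [this]; exact h1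
  have E3 : ∀ᶠ n : ℕ in atTop, (n : ℝ) ^ (a - 1) < 1 / 2 := h2.eventually_lt_const (by norm_num)
  have E6 : ∀ᶠ n : ℕ in atTop, 12 / ε ≤ (n : ℝ) :=
    tendsto_natCast_atTop_atTop.eventually_ge_atTop _
  have E7 : ∀ᶠ n : ℕ in atTop, 4 ≤ ε ^ 2 / 128 * (n : ℝ) ^ a :=
    ((tendsto_rpow_nat ha).const_mul_atTop (by positivity)).eventually_ge_atTop _
  filter_upwards [E3, E6, E7, eventually_ge_atTop 8] with n e3 e6 e7 hn
  have hn1 : 1 ≤ n := by omega
  have hn0 : (0 : ℝ) < n := by exact_mod_cast hn1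
  have hn8 : (8 : ℝ) ≤ n := by exact_mod_cast hn
  set p : ℝ := (1 + ε) * (n : ℝ) ^ (a - 1) with hp
  set r : ℝ := (n : ℝ) ^ a with hr
  have hr0 : 0 < r := Real.rpow_pos_of_pos hn0 a
  have hpw : 0 < (n : ℝ) ^ (a - 1) := Real.rpow_pos_of_pos hn0 _
  have hp0 : 0 ≤ p := by positivity
  have hp1 : p ≤ 1 := by
    rw [hp]; nlinarith
  refine ⟨hp1, ?_⟩
  have hpn : p * n = (1 + ε) * r := by rw [hp, hr, mul_assoc, rpow_pred hn1]
  have hrn : r ≤ n / 2 := by
    rw [hr, ← rpow_pred hn1]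
    nlinarith
  set M : ℕ := n / 2 with hM
  have hMn : (M : ℝ) ≤ n / 2 := by
    have : 2 * M ≤ n := by omega
    have : (2 : ℝ) * M ≤ n := by exact_mod_cast this
    linarith
  have hMn' : (n : ℝ) / 4 ≤ M := by
    have : n ≤ 4 * M := by omega
    have : (n : ℝ) ≤ 4 * M := by exact_mod_cast this
    linarith
  have hs1 : ε / 8 ≤ 1 / 2 := by linarith
  have hnp := not_perc (n := n) (r := r) (M := M) (s := ε / 8) hp0 hp1 (by positivity) hs1 hn1
    (by linarith)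
  rw [Pr_not] at hnp
  have hexp : (M : ℝ) * (ε / 8 * r - p * ((ε / 8 - 2 * (ε / 8) ^ 2) * (n - 1))) ≤ -(4 * (n : ℝ)) := by
    have e8 : p * ((ε / 8 - 2 * (ε / 8) ^ 2) * (n - 1)) =
        (ε / 8 - 2 * (ε / 8) ^ 2) * ((1 + ε) * r) * ((n - 1) / n) := by
      rw [← hpn]; field_simp
    have e9 : 1 - ε / 12 ≤ ((n : ℝ) - 1) / n := by
      rw [le_div_iff₀ hn0]
      have : 12 ≤ ε * n := by
        have := mul_le_mul_of_nonneg_left e6 hε.le
        have h3 : ε * (12 / ε) = 12 := by field_simp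
        linarith
      nlinarith
    have e10 : ε / 8 * (1 + ε / 4) * r ≤ p * ((ε / 8 - 2 * (ε / 8) ^ 2) * (n - 1)) := by
      rw [e8]
      have h3 : (ε / 8 - 2 * (ε / 8) ^ 2) * ((1 + ε) * r) * (1 - ε / 12) ≤
          (ε / 8 - 2 * (ε / 8) ^ 2) * ((1 + ε) * r) * ((n - 1) / n) := by
        apply mul_le_mul_of_nonneg_left e9
        have : 0 ≤ ε / 8 - 2 * (ε / 8) ^ 2 := by nlinarith
        positivity
      refine le_trans ?_ h3
      have h4 : (1 + ε / 4) ≤ (1 - ε / 4) * (1 + ε) * (1 - ε / 12) := by nlinarith [mul_pos hε hε, mul_pos (mul_pos hε hε) hε]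
      have h5 : 0 ≤ ε / 8 * r := by positivity
      calc ε / 8 * (1 + ε / 4) * r = (ε / 8 * r) * (1 + ε / 4) := by ring
        _ ≤ (ε / 8 * r) * ((1 - ε / 4) * (1 + ε) * (1 - ε / 12)) := mul_le_mul_of_nonneg_left h4 h5
        _ = _ := by ring
    have e11 : ε / 8 * r - p * ((ε / 8 - 2 * (ε / 8) ^ 2) * (n - 1)) ≤ -(ε ^ 2 / 32 * r) := by
      nlinarith
    calc (M : ℝ) * (ε / 8 * r - p * ((ε / 8 - 2 * (ε / 8) ^ 2) * (n - 1)))
        ≤ (M : ℝ) * (-(ε ^ 2 / 32 * r)) := mul_le_mul_of_nonneg_left e11 (Nat.cast_nonneg _)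
      _ = -((M : ℝ) * (ε ^ 2 / 32 * r)) := by ring
      _ ≤ -((n : ℝ) / 4 * (ε ^ 2 / 32 * r)) := by
        apply neg_le_neg
        exact mul_le_mul_of_nonneg_right hMn' (by positivity)
      _ ≤ _ := by
        apply neg_le_neg
        nlinarith
  have hfin : (2 : ℝ) ^ n * ((2 : ℝ) ^ n *
        Real.exp ((M : ℝ) * (ε / 8 * r - p * ((ε / 8 - 2 * (ε / 8) ^ 2) * (n - 1))))) ≤ 1 / 2 := by
    have h6 : (2 : ℝ) ^ n * ((2 : ℝ) ^ n * Real.exp (-(4 * (n : ℝ)))) = (4 * Real.exp (-4)) ^ n := by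
      rw [mul_pow, ← Real.exp_nat_mul, ← mul_assoc, ← mul_pow]
      congr 2
      · norm_num
      · ring
    have h7 : 4 * Real.exp (-4) ≤ 1 / 2 := by
      have h8 : (2 : ℝ) ^ 4 * 1 < Real.exp 4 := by
        have h9 := Real.exp_one_gt_d9
        have : Real.exp 4 = Real.exp 1 ^ 4 := by rw [← Real.exp_nat_mul]; norm_num
        rw [this]
        have h10 : (2.7 : ℝ) ^ 4 ≤ Real.exp 1 ^ 4 := pow_le_pow_left₀ (by norm_num) (by linarith) 4
        norm_num at h10 ⊢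
        linarith
      rw [Real.exp_neg]
      have h11 : (16 : ℝ) < Real.exp 4 := by linarith
      have : (Real.exp 4)⁻¹ < 16⁻¹ := inv_strictAnti₀ (by norm_num) h11
      linarith
    calc _ ≤ (2 : ℝ) ^ n * ((2 : ℝ) ^ n * Real.exp (-(4 * (n : ℝ)))) := by
          apply mul_le_mul_of_nonneg_left _ (by positivity)
          apply mul_le_mul_of_nonneg_left _ (by positivity)
          exact Real.exp_le_exp.2 hexp
      _ = (4 * Real.exp (-4)) ^ n := h6
      _ ≤ (4 * Real.exp (-4)) ^ 1 := pow_le_pow_of_le_one (by positivity) (by linarith) hn1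
      _ ≤ 1 / 2 := by rw [pow_one]; exact h7
  linarith

theorem pcr_tendsto {a : ℝ} (ha : 0 < a) (ha1 : a < 1) :
    Tendsto (fun n : ℕ => pcr n ((n : ℝ) ^ a) / (n : ℝ) ^ (a - 1)) atTop (𝓝 1) := by
  have hne : ∀ᶠ n : ℕ in atTop, {p : ℝ | 0 ≤ p ∧ p ≤ 1 ∧
      1 / 2 ≤ Pr p (fun A : Finset (Q n) => Perc ((n : ℝ) ^ a) A)}.Nonempty := by
    filter_upwards [upper_ev ha ha1 one_pos le_rfl] with n hn
    refine ⟨_, ?_, hn.1, hn.2⟩
    have := Real.rpow_nonneg (Nat.cast_nonneg (α := ℝ) n) (a - 1)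
    positivity
  rw [tendsto_order]
  constructor
  · intro b hb
    set δ : ℝ := min ((1 - b) / 4) (1 / 4) with hδ
    have hδ0 : 0 < δ := lt_min (by linarith) (by norm_num)
    have hδ1 : δ ≤ 1 / 4 := min_le_right _ _
    have hδ2 : δ ≤ (1 - b) / 4 := min_le_left _ _
    filter_upwards [lower_ev ha ha1 hδ0 hδ1, hne, eventually_ge_atTop 1] with n h1 h2 hn
    have hn0 : (0 : ℝ) < n := by exact_mod_cast hn
    have hpw : 0 < (n : ℝ) ^ (a - 1) := Real.rpow_pos_of_pos hn0 _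
    have h3 : (1 - 2 * δ) * (n : ℝ) ^ (a - 1) ≤ pcr n ((n : ℝ) ^ a) := by
      unfold pcr
      apply le_csInf h2
      rintro p ⟨hp0, hp1, hp2⟩
      by_contra hcon
      push Not at hcon
      have := h1 p hp0 hp1 hcon.le
      linarith
    rw [lt_div_iff₀ hpw]
    have : b * (n : ℝ) ^ (a - 1) < (1 - 2 * δ) * (n : ℝ) ^ (a - 1) :=
      mul_lt_mul_of_pos_right (by linarith) hpw
    linarith
  · intro b hb
    set ε : ℝ := min ((b - 1) / 2) 1 with hε
    have hε0 : 0 < ε := lt_min (by linarith) (by norm_num)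
    have hε1 : ε ≤ 1 := min_le_right _ _
    have hε2 : ε ≤ (b - 1) / 2 := min_le_left _ _
    filter_upwards [upper_ev ha ha1 hε0 hε1, eventually_ge_atTop 1] with n h1 hn
    have hn0 : (0 : ℝ) < n := by exact_mod_cast hn
    have hpw : 0 < (n : ℝ) ^ (a - 1) := Real.rpow_pos_of_pos hn0 _
    have h3 : pcr n ((n : ℝ) ^ a) ≤ (1 + ε) * (n : ℝ) ^ (a - 1) := by
      unfold pcr
      apply csInf_le
      · exact ⟨0, fun p hp => hp.1⟩
      · exact ⟨by positivity, h1.1, h1.2⟩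
    rw [div_lt_iff₀ hpw]
    have : (1 + ε) * (n : ℝ) ^ (a - 1) < b * (n : ℝ) ^ (a - 1) :=
      mul_lt_mul_of_pos_right (by linarith) hpw
    linarith

end Pool.Agent.H500R3.Cube
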