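import Pool.Agent.H500R3.Cube.Level

/-! Probability bounds. -/

set_option autoImplicit false

namespace Pool.Agent.H500R3.Cube
open Finset Classical Pool.Agent.Helper91.BP

variable {n : ℕ}

theorem exp_le_quad {x : ℝ} (h0 : 0 ≤ x) (h1 : x ≤ 1) : Real.exp x ≤ 1 + x + x ^ 2 := by
  have := Real.abs_exp_sub_one_sub_id_le (x := x) (by rw [abs_le]; constructor <;> linarith)
  have := (abs_le.1 this).2
  linarith

/-- the general exponential Chebyshev bound for the `p`-random set -/
theorem cheb {V : Type*} [Fintype V] [DecidableEq V] {p : ℝ} (h0 : 0 ≤ p) (h1 : p ≤ 1)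
    (E : Finset V → Prop) (c : V → ℝ) (b : ℝ)
    (hE : ∀ A, E A → b ≤ ∑ z ∈ A, c z) :
    Pr p E ≤ Real.exp (-b + p * ∑ z : V, (Real.exp (c z) - 1)) := by
  have step1 := Pr_le_sum h0 h1 E
    (fun A => Real.exp (-b) * ((∏ z ∈ A, Real.exp (c z)) * (∏ z ∈ Aᶜ, (1 : ℝ))))
    (by
      intro A
      apply mul_nonneg (Real.exp_pos _).le
      apply mul_nonneg
      · exact Finset.prod_nonneg (fun _ _ => (Real.exp_pos _).le)
      · exact Finset.prod_nonneg (fun _ _ => zero_le_one))
    (by
      intro A hA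
      rw [Finset.prod_const_one, mul_one, ← Real.exp_sum, ← Real.exp_add]
      apply Real.one_le_exp
      have := hE A hA
      linarith)
  refine le_trans step1 ?_
  have hrew : ∀ A : Finset V, wt p A * (Real.exp (-b) *
      ((∏ z ∈ A, Real.exp (c z)) * (∏ z ∈ Aᶜ, (1 : ℝ))))
      = Real.exp (-b) * (wt p A *
      ((∏ z ∈ A, Real.exp (c z)) * (∏ z ∈ Aᶜ, (1 : ℝ)))) := by
    intro A; ring
  simp_rw [hrew]
  rw [← Finset.mul_sum, sum_prod p (fun z => Real.exp (c z)) (fun _ => 1), Real.exp_add]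
  apply mul_le_mul_of_nonneg_left _ (Real.exp_pos _).le
  rw [Finset.mul_sum, Real.exp_sum]
  apply Finset.prod_le_prod
  · intro z _
    have := Real.exp_pos (c z)
    have h2 : 0 ≤ 1 - p := by linarith
    positivity
  · intro z _
    have := Real.add_one_le_exp (p * (Real.exp (c z) - 1))
    linarith

/-- upper tail: a set at distance `j` from `v0` inside level zero -/
theorem sub_prob {p s t m : ℝ} (h0 : 0 ≤ p) (h1 : p ≤ 1) (v0 : Q n) (j : ℕ) (Y : Finset (Q n))
    (hY : Y ⊆ sph v0 j) (hs0 : 0 ≤ s) (hs1 : s * ((j : ℝ) + 1) ≤ 1) :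
    Pr p (fun A => Y ⊆ L t m A 0) ≤
      Real.exp ((Y.card : ℝ) * (-(s * (t - j)) + p * (s * (1 + s * ((j : ℝ) + 1)) * n))) := by
  set c : Q n → ℝ := fun z => if hammingDist z v0 = j + 1 then s * ((nb z ∩ Y).card : ℝ) else 0 with hc
  have hch := cheb h0 h1 (fun A => Y ⊆ L t m A 0) c (s * ((Y.card : ℝ) * (t - j))) (by
    intro A hA
    have e1 : ∑ z ∈ A, c z = s * ∑ z ∈ A.filter (fun z => hammingDist z v0 = j + 1),
        ((nb z ∩ Y).card : ℝ) := by
      rw [hc, ← sum_filter, mul_sum]
    rw [e1]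
    apply mul_le_mul_of_nonneg_left _ hs0
    rw [← Nat.cast_sum, ← double, Nat.cast_sum, ← nsmul_eq_mul, ← sum_const]
    apply sum_le_sum
    intro y hy
    have h2 : ((nb y ∩ A).card : ℝ) ≤
        ((nb y ∩ A.filter (fun z => hammingDist z v0 = j + 1)).card : ℝ) + j := by
      have hsub : nb y ∩ A ⊆ (nb y ∩ A.filter (fun z => hammingDist z v0 = j + 1)) ∪ cl y v0 := by
        intro w hw
        rw [mem_union]
        have hyj := mem_sph.1 (hY hy)
        rcases nb_dist (mem_inter.1 hw).1 v0 with h | h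
        · left
          rw [mem_inter, mem_filter]
          exact ⟨(mem_inter.1 hw).1, (mem_inter.1 hw).2, by omega⟩
        · right; exact h.2
      have h3 : (nb y ∩ A).card ≤ (nb y ∩ A.filter (fun z => hammingDist z v0 = j + 1)).card + j := by
        calc _ ≤ _ := card_le_card hsub
          _ ≤ _ := card_union_le _ _
          _ ≤ _ := by
            have := card_cl y v0
            rw [mem_sph.1 (hY hy)] at this
            omega
      exact_mod_cast h3
    have h4 := mem_L0.1 (hA hy)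
    linarith)
  refine le_trans hch ?_
  apply Real.exp_le_exp.2
  have hsum : ∑ z : Q n, (Real.exp (c z) - 1) ≤ s * (1 + s * ((j : ℝ) + 1)) * ((Y.card : ℝ) * n) := by
    have hz : ∀ z : Q n, Real.exp (c z) - 1 ≤ s * (1 + s * ((j : ℝ) + 1)) * ((nb z ∩ Y).card : ℝ) := by
      intro z
      rw [hc]
      simp only
      have hjs : 0 ≤ 1 + s * ((j : ℝ) + 1) := by positivity
      by_cases hz : hammingDist z v0 = j + 1
      · rw [if_pos hz]
        have hk : ((nb z ∩ Y).card : ℝ) ≤ (j : ℝ) + 1 := by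
          have hsub : nb z ∩ Y ⊆ cl z v0 := by
            intro w hw
            have h5 := mem_sph.1 (hY (mem_inter.1 hw).2)
            unfold cl
            rw [mem_filter]
            exact ⟨(mem_inter.1 hw).1, by omega⟩
          have h6 := card_le_card hsub
          have h7 := card_cl z v0
          have : (nb z ∩ Y).card ≤ j + 1 := by omega
          exact_mod_cast this
        set k : ℝ := ((nb z ∩ Y).card : ℝ) with hkdef
        have hk0 : 0 ≤ k := Nat.cast_nonneg _
        have hsk : s * k ≤ s * ((j : ℝ) + 1) := mul_le_mul_of_nonneg_left hk hs0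
        have h8 := exp_le_quad (x := s * k) (by positivity) (by linarith)
        have h9 : (s * k) ^ 2 ≤ (s * k) * (s * ((j : ℝ) + 1)) := by
          rw [sq]
          exact mul_le_mul_of_nonneg_left hsk (by positivity)
        nlinarith
      · rw [if_neg hz]
        have : (0 : ℝ) ≤ ((nb z ∩ Y).card : ℝ) := Nat.cast_nonneg _
        rw [Real.exp_zero, sub_self]
        positivity
    calc ∑ z : Q n, (Real.exp (c z) - 1) ≤
        ∑ z : Q n, s * (1 + s * ((j : ℝ) + 1)) * ((nb z ∩ Y).card : ℝ) := sum_le_sum (fun z _ => hz z)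
      _ = s * (1 + s * ((j : ℝ) + 1)) * ∑ z : Q n, ((nb z ∩ Y).card : ℝ) := by rw [mul_sum]
      _ = s * (1 + s * ((j : ℝ) + 1)) * ((Y.card : ℝ) * n) := by
        congr 1
        rw [← Nat.cast_sum, ← double]
        simp [card_nb]
  have := mul_le_mul_of_nonneg_left hsum h0
  nlinarith

/-- the probability that `v0` has level `j` -/
theorem level_prob {p s t m : ℝ} {K : ℕ} (h0 : 0 ≤ p) (h1 : p ≤ 1) (hm : (K : ℝ) ≤ m) (v0 : Q n)
    {j : ℕ} (hj : j ≤ K) (hn : 1 ≤ n)
    {M : ℕ} (hM : ((M : ℝ) - 1) * (j.factorial : ℝ) < (m - K) ^ j)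
    (hs0 : 0 ≤ s) (hs1 : s * ((j : ℝ) + 1) ≤ 1) :
    Pr p (fun A => v0 ∈ L t m A j) ≤
      Real.exp ((M : ℝ) * (j * Real.log n - (s * (t - j)) + p * (s * (1 + s * ((j : ℝ) + 1)) * n))) := by
  have hn0 : (0 : ℝ) < n := by exact_mod_cast hn
  calc Pr p (fun A => v0 ∈ L t m A j)
      ≤ Pr p (fun A => ∃ Y ∈ (sph v0 j).powersetCard M, Y ⊆ L t m A 0) := by
        apply Pr_mono h0 h1
        intro A hA
        exact level_many hm A v0 hj hA hM
    _ ≤ ∑ Y ∈ (sph v0 j).powersetCard M, Pr p (fun A => Y ⊆ L t m A 0) := Pr_bUnion_le h0 h1 _ _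
    _ ≤ ∑ Y ∈ (sph v0 j).powersetCard M,
        Real.exp ((M : ℝ) * (-(s * (t - j)) + p * (s * (1 + s * ((j : ℝ) + 1)) * n))) := by
        apply sum_le_sum
        intro Y hY
        rw [mem_powersetCard] at hY
        have := sub_prob (t := t) (m := m) h0 h1 v0 j Y hY.1 hs0 hs1
        rwa [hY.2] at this
    _ = (((sph v0 j).powersetCard M).card : ℝ) *
        Real.exp ((M : ℝ) * (-(s * (t - j)) + p * (s * (1 + s * ((j : ℝ) + 1)) * n))) := by
        rw [sum_const, nsmul_eq_mul]
    _ ≤ Real.exp ((M : ℝ) * (j * Real.log n)) *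
        Real.exp ((M : ℝ) * (-(s * (t - j)) + p * (s * (1 + s * ((j : ℝ) + 1)) * n))) := by
        apply mul_le_mul_of_nonneg_right _ (Real.exp_pos _).le
        have h3 : ((sph v0 j).powersetCard M).card ≤ (n ^ j) ^ M := by
          rw [card_powersetCard]
          exact le_trans (Nat.choose_le_pow _ _) (Nat.pow_le_pow_left (card_sph v0 j) M)
        have h4 : (((sph v0 j).powersetCard M).card : ℝ) ≤ ((n : ℝ) ^ j) ^ M := by exact_mod_cast h3
        refine le_trans h4 (le_of_eq ?_)
        rw [Real.exp_nat_mul, Real.exp_nat_mul, Real.exp_log hn0]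
    _ = _ := by
        rw [← Real.exp_add]
        congr 1
        ring

/-- `A` percolates for the threshold `r` -/
def Perc (r : ℝ) (A : Finset (Q n)) : Prop :=
  ∀ S : Finset (Q n), A ⊆ S →
    (∀ v : Q n, r ≤ ((S.filter (fun u => hammingDist u v = 1)).card : ℝ) → v ∈ S) → S = univ

theorem inter_nb (S : Finset (Q n)) (v : Q n) :
    S.filter (fun u => hammingDist u v = 1) = S ∩ nb v := by
  ext u
  rw [mem_filter, mem_inter, mem_nb]

/-- lower tail: many vertices with few neighbours in `A` -/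
theorem low_prob {p s r : ℝ} (h0 : 0 ≤ p) (h1 : p ≤ 1) (v0 : Q n) (Y : Finset (Q n))
    (hY : Y ⊆ nb v0) (hs0 : 0 ≤ s) (hs1 : s ≤ 1 / 2) (hn : 1 ≤ n) :
    Pr p (fun A => ∀ y ∈ Y, ((A ∩ nb y).card : ℝ) ≤ r) ≤
      Real.exp ((Y.card : ℝ) * (s * r - p * ((s - 2 * s ^ 2) * (n - 1)))) := by
  have hYs : Y ⊆ sph v0 1 := fun w hw => mem_sph.2 (mem_nb.1 (hY hw))
  set c : Q n → ℝ := fun z => if hammingDist z v0 = 2 then -(s * ((nb z ∩ Y).card : ℝ)) else 0 with hc
  have hch := cheb h0 h1 (fun A => ∀ y ∈ Y, ((A ∩ nb y).card : ℝ) ≤ r) c (-(s * ((Y.card : ℝ) * r))) (by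
    intro A hA
    have e1 : ∑ z ∈ A, c z = -(s * ∑ z ∈ A.filter (fun z => hammingDist z v0 = 2),
        ((nb z ∩ Y).card : ℝ)) := by
      rw [hc, ← sum_filter, mul_sum, sum_neg_distrib]
    rw [e1]
    apply neg_le_neg
    apply mul_le_mul_of_nonneg_left _ hs0
    rw [← Nat.cast_sum, ← double, Nat.cast_sum, ← nsmul_eq_mul, ← sum_const]
    apply sum_le_sum
    intro y hy
    refine le_trans ?_ (hA y hy)
    have : nb y ∩ A.filter (fun z => hammingDist z v0 = 2) ⊆ A ∩ nb y := by
      intro w hw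
      rw [mem_inter, mem_filter] at hw
      exact mem_inter.2 ⟨hw.2.1, hw.1⟩
    exact_mod_cast card_le_card this)
  refine le_trans hch ?_
  apply Real.exp_le_exp.2
  have hsum : ∑ z : Q n, (Real.exp (c z) - 1) ≤ -((s - 2 * s ^ 2) * ((Y.card : ℝ) * (n - 1))) := by
    have hz : ∀ z : Q n, Real.exp (c z) - 1 ≤
        if hammingDist z v0 = 2 then -((s - 2 * s ^ 2) * ((nb z ∩ Y).card : ℝ)) else 0 := by
      intro z
      rw [hc]
      simp only
      by_cases hz : hammingDist z v0 = 2
      · rw [if_pos hz, if_pos hz]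
        have hk : (nb z ∩ Y).card ≤ 2 := by
          have hsub : nb z ∩ Y ⊆ cl z v0 := by
            intro w hw
            have h5 := mem_sph.1 (hYs (mem_inter.1 hw).2)
            unfold cl
            rw [mem_filter]
            exact ⟨(mem_inter.1 hw).1, by omega⟩
          have h6 := card_le_card hsub
          have h7 := card_cl z v0
          omega
        have hk' : ((nb z ∩ Y).card : ℝ) ≤ 2 := by exact_mod_cast hk
        set k : ℝ := ((nb z ∩ Y).card : ℝ) with hkdef
        have hk0 : 0 ≤ k := Nat.cast_nonneg _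
        have hx : |-(s * k)| ≤ 1 := by
          rw [abs_neg, abs_of_nonneg (by positivity)]
          nlinarith
        have h8 := Real.abs_exp_sub_one_sub_id_le hx
        have h9 := (abs_le.1 h8).2
        have h10 : (-(s * k)) ^ 2 ≤ 2 * s ^ 2 * k := by
          have : k ^ 2 ≤ 2 * k := by nlinarith
          have h11 : 0 ≤ s ^ 2 := sq_nonneg s
          nlinarith
        nlinarith
      · rw [if_neg hz, if_neg hz]
        simp
    calc ∑ z : Q n, (Real.exp (c z) - 1) ≤
        ∑ z : Q n, (if hammingDist z v0 = 2 then -((s - 2 * s ^ 2) * ((nb z ∩ Y).card : ℝ)) else 0) :=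
          sum_le_sum (fun z _ => hz z)
      _ = -((s - 2 * s ^ 2) * ∑ z ∈ univ.filter (fun z : Q n => hammingDist z v0 = 2),
          ((nb z ∩ Y).card : ℝ)) := by
          rw [← sum_filter, sum_neg_distrib, mul_sum]
      _ ≤ _ := by
        apply neg_le_neg
        have hss : 0 ≤ s - 2 * s ^ 2 := by nlinarith
        apply mul_le_mul_of_nonneg_left _ hss
        rw [← Nat.cast_sum, ← double, Nat.cast_sum, ← nsmul_eq_mul, ← sum_const]
        apply sum_le_sum
        intro y hy
        have hy1 := mem_sph.1 (hYs hy)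
        have h2 : n ≤ (nb y ∩ univ.filter (fun z : Q n => hammingDist z v0 = 2)).card + 1 := by
          have hsub : nb y ⊆ (nb y ∩ univ.filter (fun z : Q n => hammingDist z v0 = 2)) ∪ cl y v0 := by
            intro w hw
            rw [mem_union]
            rcases nb_dist hw v0 with h | h
            · left
              rw [mem_inter, mem_filter]
              exact ⟨hw, mem_univ _, by omega⟩
            · right; exact h.2
          have h3 := card_le_card hsub
          rw [card_nb] at h3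
          have h4 := card_union_le (nb y ∩ univ.filter (fun z : Q n => hammingDist z v0 = 2)) (cl y v0)
          have h5 := card_cl y v0
          omega
        have h3 : (n : ℝ) ≤ ((nb y ∩ univ.filter (fun z : Q n => hammingDist z v0 = 2)).card : ℝ) + 1 := by
          exact_mod_cast h2
        linarith
  have := mul_le_mul_of_nonneg_left hsum h0
  nlinarith

/-- probability of not percolating -/
theorem not_perc {p s r : ℝ} (h0 : 0 ≤ p) (h1 : p ≤ 1) (hs0 : 0 ≤ s) (hs1 : s ≤ 1 / 2) (hn : 1 ≤ n)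
    {M : ℕ} (hr : r + M ≤ n) :
    Pr p (fun A : Finset (Q n) => ¬ Perc r A) ≤
      (2 : ℝ) ^ n * ((2 : ℝ) ^ n *
        Real.exp ((M : ℝ) * (s * r - p * ((s - 2 * s ^ 2) * (n - 1))))) := by
  have key : ∀ A : Finset (Q n), ¬ Perc r A →
      ∃ v0 ∈ (univ : Finset (Q n)), ∃ Y ∈ (nb v0).powersetCard M,
        ∀ y ∈ Y, ((A ∩ nb y).card : ℝ) ≤ r := by
    intro A hA
    unfold Perc at hA
    push Not at hA
    obtain ⟨S, hAS, hS, hSu⟩ := hA
    obtain ⟨v, hv⟩ : ∃ v, v ∉ S := by
      by_contra hcon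
      push Not at hcon
      exact hSu (eq_univ_iff_forall.2 hcon)
    have hlt : ∀ w, w ∉ S → ((S ∩ nb w).card : ℝ) < r := by
      intro w hw
      by_contra hcon
      push Not at hcon
      exact hw (hS w (by rw [inter_nb]; exact hcon))
    have h2 : M ≤ (nb v \ S).card := by
      have h3 := card_sdiff_add_card_inter (nb v) S
      rw [card_nb, inter_comm] at h3
      have h4 := hlt v hv
      have h5 : (n : ℝ) = ((nb v \ S).card : ℝ) + ((S ∩ nb v).card : ℝ) := by exact_mod_cast h3.symm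
      have h6 : (M : ℝ) < ((nb v \ S).card : ℝ) := by linarith
      have h7 : M < (nb v \ S).card := by exact_mod_cast h6
      omega
    obtain ⟨Y, hY, hYc⟩ := exists_subset_card_eq h2
    refine ⟨v, mem_univ _, Y, ?_, ?_⟩
    · rw [mem_powersetCard]
      exact ⟨fun w hw => (mem_sdiff.1 (hY hw)).1, hYc⟩
    · intro y hy
      have h8 := hlt y (mem_sdiff.1 (hY hy)).2
      have h9 : (A ∩ nb y).card ≤ (S ∩ nb y).card :=
        card_le_card (inter_subset_inter_right hAS)
      have h10 : ((A ∩ nb y).card : ℝ) ≤ ((S ∩ nb y).card : ℝ) := by exact_mod_cast h9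
      linarith
  calc Pr p (fun A : Finset (Q n) => ¬ Perc r A)
      ≤ Pr p (fun A : Finset (Q n) => ∃ v0 ∈ (univ : Finset (Q n)), ∃ Y ∈ (nb v0).powersetCard M,
        ∀ y ∈ Y, ((A ∩ nb y).card : ℝ) ≤ r) := Pr_mono h0 h1 key
    _ ≤ ∑ v0 ∈ (univ : Finset (Q n)), Pr p (fun A : Finset (Q n) => ∃ Y ∈ (nb v0).powersetCard M,
        ∀ y ∈ Y, ((A ∩ nb y).card : ℝ) ≤ r) := Pr_bUnion_le h0 h1 _ _
    _ ≤ ∑ v0 ∈ (univ : Finset (Q n)), ((2 : ℝ) ^ n *
        Real.exp ((M : ℝ) * (s * r - p * ((s - 2 * s ^ 2) * (n - 1))))) := by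
        apply sum_le_sum
        intro v0 _
        calc _ ≤ ∑ Y ∈ (nb v0).powersetCard M, Pr p (fun A : Finset (Q n) =>
              ∀ y ∈ Y, ((A ∩ nb y).card : ℝ) ≤ r) := Pr_bUnion_le h0 h1 _ _
          _ ≤ ∑ Y ∈ (nb v0).powersetCard M,
              Real.exp ((M : ℝ) * (s * r - p * ((s - 2 * s ^ 2) * (n - 1)))) := by
              apply sum_le_sum
              intro Y hY
              rw [mem_powersetCard] at hY
              have := low_prob (r := r) h0 h1 v0 Y hY.1 hs0 hs1 hn
              rwa [hY.2] at this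
          _ = (((nb v0).powersetCard M).card : ℝ) *
              Real.exp ((M : ℝ) * (s * r - p * ((s - 2 * s ^ 2) * (n - 1)))) := by
              rw [sum_const, nsmul_eq_mul]
          _ ≤ _ := by
              apply mul_le_mul_of_nonneg_right _ (Real.exp_pos _).le
              have h3 : ((nb v0).powersetCard M).card ≤ 2 ^ n := by
                rw [card_powersetCard, card_nb]
                exact Nat.choose_le_two_pow _ _
              exact_mod_cast h3
    _ = _ := by
        rw [sum_const, nsmul_eq_mul]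
        simp

end Pool.Agent.H500R3.Cube
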